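import Pool.Agent.Y118.UL.Ld

set_option autoImplicit false

/-!
Project AF, job CONN, part one: the ideal of the specialised relations is prime.
-/

open scoped TensorProduct

namespace Pool.Agent.Y340.AF

open Pool.Agent.Y118.UL

section field

variable {k E L : Type} [Field k] [Field E] [Field L] [Algebra k E] [Algebra k L] {r : ℕ}

/-- the evaluation map to the tensor product -/
noncomputable def piT (w : Fin r → E) : MvPolynomial (Fin r) L →+* E ⊗[k] L :=
  MvPolynomial.eval₂Hom (Algebra.TensorProduct.includeRight : L →ₐ[k] E ⊗[k] L).toRingHom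
    (fun i => w i ⊗ₜ[k] (1 : L))

lemma piT_monomial (w : Fin r → E) (m : Fin r →₀ ℕ) (a : L) :
    piT (k := k) w (MvPolynomial.monomial m a) = (m.prod fun j e => w j ^ e) ⊗ₜ[k] a := by
  unfold piT
  rw [MvPolynomial.coe_eval₂Hom, MvPolynomial.eval₂_monomial]
  have h1 : (m.prod fun j e => (w j ⊗ₜ[k] (1 : L)) ^ e) = (m.prod fun j e => w j ^ e) ⊗ₜ[k] (1 : L) := by
    have h2 := map_finsuppProd (Algebra.TensorProduct.includeLeft : E →ₐ[k] E ⊗[k] L) m
      (fun j e => w j ^ e)
    rw [Algebra.TensorProduct.includeLeft_apply] at h2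
    rw [h2]
    refine Finsupp.prod_congr fun j _ => ?_
    rw [map_pow, Algebra.TensorProduct.includeLeft_apply]
  rw [h1]
  show (1 : E) ⊗ₜ[k] a * _ = _
  rw [Algebra.TensorProduct.tmul_mul_tmul, one_mul, mul_one]

/-- the polynomial of the `i`-th coordinates of the coefficients -/
noncomputable def cpol {ι : Type} (b : Module.Basis ι k L) (F : MvPolynomial (Fin r) L) (i : ι) :
    MvPolynomial (Fin r) k :=
  ∑ m ∈ F.support, MvPolynomial.monomial m (b.repr (F.coeff m) i)

lemma repr_piT {ι : Type} (b : Module.Basis ι k L) (w : Fin r → E) (F : MvPolynomial (Fin r) L) (i : ι) :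
    (b.baseChange E).repr (piT w F) i = MvPolynomial.eval₂ (algebraMap k E) w (cpol b F i) := by
  conv_lhs => rw [F.as_sum]
  rw [map_sum, map_sum, Finsupp.finsetSum_apply]
  unfold cpol
  rw [MvPolynomial.eval₂_sum]
  refine Finset.sum_congr rfl fun m _ => ?_
  rw [piT_monomial, Module.Basis.baseChange_repr_tmul, MvPolynomial.eval₂_monomial, Algebra.smul_def]

lemma coeff_cpol {ι : Type} (b : Module.Basis ι k L) (F : MvPolynomial (Fin r) L) (i : ι)
    (m : Fin r →₀ ℕ) : (cpol b F i).coeff m = b.repr (F.coeff m) i := by
  classical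
  unfold cpol
  rw [MvPolynomial.coeff_sum]
  simp_rw [MvPolynomial.coeff_monomial]
  rw [Finset.sum_ite_eq']
  split_ifs with h
  · rfl
  · rw [MvPolynomial.notMem_support_iff.1 h]
    simp

lemma F_eq {ι : Type} (b : Module.Basis ι k L) (F : MvPolynomial (Fin r) L) :
    ∃ s : Finset ι, F = ∑ i ∈ s, MvPolynomial.C (b i) * MvPolynomial.map (algebraMap k L) (cpol b F i) := by
  classical
  refine ⟨F.support.biUnion (fun m => (b.repr (F.coeff m)).support), ?_⟩
  set s := F.support.biUnion (fun m => (b.repr (F.coeff m)).support) with hs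
  have hsub : ∀ m, (b.repr (F.coeff m)).support ⊆ s := by
    intro m
    by_cases hm : m ∈ F.support
    · exact Finset.subset_biUnion_of_mem (fun m => (b.repr (F.coeff m)).support) hm
    · rw [MvPolynomial.notMem_support_iff.1 hm]
      simp
  ext m
  rw [MvPolynomial.coeff_sum]
  simp_rw [MvPolynomial.coeff_C_mul, MvPolynomial.coeff_map, coeff_cpol]
  have h2 := b.linearCombination_repr (F.coeff m)
  rw [Finsupp.linearCombination_apply, Finsupp.sum_of_support_subset _ (hsub m) _ (by simp)] at h2
  refine h2.symm.trans ?_
  refine Finset.sum_congr rfl fun i _ => ?_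
  rw [Algebra.smul_def, mul_comm]

end field

section core

variable {C A L : Type} [CommRing C] [IsDomain C] [CharZero C] [CommRing A] [IsDomain A] [Field L] {r : ℕ}

/-- the ideal of the specialised relations -/
noncomputable def spJ (f : MvPolynomial (Fin r) C →+* A) (φ : C →+* L) : Ideal (MvPolynomial (Fin r) L) :=
  Ideal.span {F | ∃ R, f R = 0 ∧ F = MvPolynomial.map φ R}

attribute [local instance] MvPolynomial.algebraMvPolynomial in
theorem prime_core (f : MvPolynomial (Fin r) C →+* A) (hinj : Function.Injective (f.comp MvPolynomial.C))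
    (hreg : ∀ e : FractionRing A, (∃ p : Polynomial C, p ≠ 0 ∧
        p.eval₂ ((algebraMap A (FractionRing A)).comp (f.comp MvPolynomial.C)) e = 0) →
      ∃ a b : C, b ≠ 0 ∧ e = algebraMap A (FractionRing A) (f (MvPolynomial.C a)) /
        algebraMap A (FractionRing A) (f (MvPolynomial.C b)))
    (φ : C →+* L) (hφ : Function.Injective φ) (P Q : MvPolynomial (Fin r) L) (h : P * Q ∈ spJ f φ) :
    P ∈ spJ f φ ∨ Q ∈ spJ f φ := by
  classical
  have hiinj : Function.Injective ((algebraMap A (FractionRing A)).comp (f.comp MvPolynomial.C)) :=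
    (IsFractionRing.injective A (FractionRing A)).comp hinj
  let iE : FractionRing C →+* FractionRing A := IsFractionRing.lift (A := C) (K := FractionRing C)
    (g := (algebraMap A (FractionRing A)).comp (f.comp MvPolynomial.C)) hiinj
  have hiE : ∀ q, iE (algebraMap C (FractionRing C) q) = algebraMap A (FractionRing A) (f (MvPolynomial.C q)) :=
    fun q => IsFractionRing.lift_algebraMap hiinj q
  let jL : FractionRing C →+* L := IsFractionRing.lift (A := C) (K := FractionRing C) (g := φ) hφ
  have hjL : ∀ q, jL (algebraMap C (FractionRing C) q) = φ q := fun q => IsFractionRing.lift_algebraMap hφ q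
  let algE : Algebra (FractionRing C) (FractionRing A) := iE.toAlgebra
  let algL : Algebra (FractionRing C) L := jL.toAlgebra
  have hamE : algebraMap (FractionRing C) (FractionRing A) = iE := rfl
  have hamL : algebraMap (FractionRing C) L = jL := rfl
  have hcz : CharZero (FractionRing C) :=
    charZero_of_injective_algebraMap (IsFractionRing.injective C (FractionRing C))
  have hrac : RAC (FractionRing C) (FractionRing A) := by
    rintro e ⟨p, hp0, hp⟩
    rw [Polynomial.aeval_def, hamE] at hp
    obtain ⟨a, b, hb, hab'⟩ := hreg e ⟨IsLocalization.integerNormalization (nonZeroDivisors C) p, fun h0 =>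
      hp0 ((IsFractionRing.integerNormalization_eq_zero_iff (A := C) (K := FractionRing C)).1 h0), by
        have h1 : (algebraMap A (FractionRing A)).comp (f.comp MvPolynomial.C) =
            iE.comp (algebraMap C (FractionRing C)) := RingHom.ext fun q => (hiE q).symm
        rw [h1]
        exact IsLocalization.integerNormalization_eval₂_eq_zero (nonZeroDivisors C) iE p hp⟩
    refine ⟨algebraMap C (FractionRing C) a / algebraMap C (FractionRing C) b, ?_⟩
    rw [hamE, hab', map_div₀, hiE, hiE]
  have dom : NoZeroDivisors (FractionRing A ⊗[FractionRing C] L) := dom_all hrac L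
  let w : Fin r → FractionRing A := fun j => algebraMap A (FractionRing A) (f (MvPolynomial.X j))
  have hpi : ∀ R : MvPolynomial (Fin r) C, piT (k := FractionRing C) w (MvPolynomial.map φ R) =
      (algebraMap A (FractionRing A) (f R)) ⊗ₜ[FractionRing C] (1 : L) := by
    have h1 : (piT (k := FractionRing C) (L := L) w).comp (MvPolynomial.map φ) =
        ((Algebra.TensorProduct.includeLeft : FractionRing A →ₐ[FractionRing C]
          FractionRing A ⊗[FractionRing C] L).toRingHom.comp (algebraMap A (FractionRing A))).comp f := by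
      refine MvPolynomial.ringHom_ext (fun c => ?_) fun i => ?_
      · rw [RingHom.comp_apply, MvPolynomial.map_C]
        unfold piT
        rw [MvPolynomial.coe_eval₂Hom, MvPolynomial.eval₂_C]
        show (1 : FractionRing A) ⊗ₜ[FractionRing C] (φ c) =
          (algebraMap A (FractionRing A) (f (MvPolynomial.C c))) ⊗ₜ[FractionRing C] (1 : L)
        rw [← hiE, ← hjL, ← hamE, ← hamL]
        have e1 := (Algebra.TensorProduct.includeRight : L →ₐ[FractionRing C]
          FractionRing A ⊗[FractionRing C] L).commutes (algebraMap C (FractionRing C) c)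
        have e2 := (Algebra.TensorProduct.includeLeft : FractionRing A →ₐ[FractionRing C]
          FractionRing A ⊗[FractionRing C] L).commutes (algebraMap C (FractionRing C) c)
        exact e1.trans e2.symm
      · rw [RingHom.comp_apply, MvPolynomial.map_X]
        unfold piT
        rw [MvPolynomial.coe_eval₂Hom, MvPolynomial.eval₂_X]
        rfl
    intro R
    exact DFunLike.congr_fun h1 R
  have hJker : ∀ F ∈ spJ f φ, piT (k := FractionRing C) w F = 0 := by
    intro F hF
    have h1 : spJ f φ ≤ RingHom.ker (piT (k := FractionRing C) (L := L) w) := by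
      refine Ideal.span_le.2 ?_
      rintro G ⟨R, hR, rfl⟩
      show piT (k := FractionRing C) w (MvPolynomial.map φ R) = 0
      rw [hpi, hR, map_zero, TensorProduct.zero_tmul]
    exact h1 hF
  have hkerJ : ∀ F, piT (k := FractionRing C) w F = 0 → F ∈ spJ f φ := by
    intro F hF
    let b := Module.Basis.ofVectorSpace (FractionRing C) L
    have hz : ∀ i, MvPolynomial.eval₂ (algebraMap (FractionRing C) (FractionRing A)) w (cpol b F i) = 0 := by
      intro i
      rw [← repr_piT, hF]
      simp
    obtain ⟨s, hs⟩ := F_eq b F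
    rw [hs]
    refine Ideal.sum_mem _ fun i _ => Ideal.mul_mem_left _ _ ?_
    -- clear denominators
    obtain ⟨⟨R, ⟨D', hD'⟩⟩, hR⟩ := IsLocalization.surj
      (Submonoid.map (MvPolynomial.C (σ := Fin r)) (nonZeroDivisors C)) (cpol b F i)
    obtain ⟨D, hD, rfl⟩ := hD'
    simp only at hR
    have hD0 : D ≠ 0 := nonZeroDivisors.ne_zero hD
    have ham : ∀ R : MvPolynomial (Fin r) C, algebraMap (MvPolynomial (Fin r) C)
        (MvPolynomial (Fin r) (FractionRing C)) R = MvPolynomial.map (algebraMap C (FractionRing C)) R :=
      fun R => rfl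
    rw [ham, ham, MvPolynomial.map_C] at hR
    -- the relation
    have hev : ∀ R : MvPolynomial (Fin r) C, MvPolynomial.eval₂ (algebraMap (FractionRing C) (FractionRing A)) w
        (MvPolynomial.map (algebraMap C (FractionRing C)) R) = algebraMap A (FractionRing A) (f R) := by
      have h1 : (MvPolynomial.eval₂Hom (algebraMap (FractionRing C) (FractionRing A)) w).comp
          (MvPolynomial.map (algebraMap C (FractionRing C))) = (algebraMap A (FractionRing A)).comp f := by
        refine MvPolynomial.ringHom_ext (fun c => ?_) fun i => ?_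
        · rw [RingHom.comp_apply, MvPolynomial.map_C, MvPolynomial.eval₂Hom_C, hamE, hiE]
          rfl
        · rw [RingHom.comp_apply, MvPolynomial.map_X, MvPolynomial.eval₂Hom_X']
          rfl
      intro R
      exact DFunLike.congr_fun h1 R
    have hfR : f R = 0 := by
      have h1 := hev R
      rw [← hR, MvPolynomial.eval₂_mul, hz i, zero_mul] at h1
      exact ((map_eq_zero_iff _ (IsFractionRing.injective A (FractionRing A))).1 h1.symm)
    have hmap : MvPolynomial.map φ R = MvPolynomial.map (algebraMap (FractionRing C) L) (cpol b F i) *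
        MvPolynomial.C (φ D) := by
      have h1 := congrArg (MvPolynomial.map (algebraMap (FractionRing C) L)) hR
      rw [map_mul, MvPolynomial.map_C, MvPolynomial.map_map, hamL, hjL] at h1
      have h2 : jL.comp (algebraMap C (FractionRing C)) = φ := RingHom.ext hjL
      rw [h2] at h1
      rw [hamL]
      exact h1.symm
    have hφD : φ D ≠ 0 := by
      rw [Ne, map_eq_zero_iff _ hφ]
      exact hD0
    have hfin : MvPolynomial.map (algebraMap (FractionRing C) L) (cpol b F i) =
        MvPolynomial.C (φ D)⁻¹ * MvPolynomial.map φ R := by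
      rw [hmap, mul_comm (MvPolynomial.map _ _), ← mul_assoc, ← MvPolynomial.C_mul, inv_mul_cancel₀ hφD,
        MvPolynomial.C_1, one_mul]
    rw [hfin]
    exact Ideal.mul_mem_left _ _ (Ideal.subset_span ⟨R, hfR, rfl⟩)
  have h1 := hJker _ h
  rw [map_mul] at h1
  rcases mul_eq_zero.1 h1 with h2 | h2
  · exact Or.inl (hkerJ _ h2)
  · exact Or.inr (hkerJ _ h2)

end core

end Pool.Agent.Y340.AF
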