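import Pool.Agent.Y118.UL.Vli
import Pool.Agent.Y118.UL.Ger
import Pool.Agent.Y340.AF.Prime

set_option autoImplicit false

/-!
Project AF, job CONN, part two: ultraproduct argument.
-/

open PowerSeries Filter

namespace Pool.Agent.Y340.AF

open Pool.Agent.Y118.UL

/-- ultrapowers of algebraically closed fields are algebraically closed -/
theorem u_closed {k : Type} [Field k] [IsAlgClosed k] : IsAlgClosed (U k) := by
  classical
  apply IsAlgClosed.of_exists_root
  intro p hp hirr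
  have hdeg : 0 < p.natDegree := hirr.natDegree_pos
  choose f hf using fun i => mk_surj (k := k) (p.coeff i)
  set q : ℕ → Polynomial k := fun w => Polynomial.X ^ p.natDegree +
    ∑ i ∈ Finset.range p.natDegree, Polynomial.C (f i w) * Polynomial.X ^ i with hq
  have hlt : ∀ w, (∑ i ∈ Finset.range p.natDegree,
      Polynomial.C (f i w) * Polynomial.X ^ i).degree < (p.natDegree : WithBot ℕ) := by
    intro w
    refine (Polynomial.degree_sum_le _ _).trans_lt ?_
    refine (Finset.sup_lt_iff (WithBot.bot_lt_coe _)).2 ?_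
    intro i hi
    refine (Polynomial.degree_C_mul_X_pow_le _ _).trans_lt ?_
    exact WithBot.coe_lt_coe.2 (Finset.mem_range.1 hi)
  have hdq : ∀ w, (q w).degree ≠ 0 := by
    intro w
    rw [hq]
    simp only
    rw [Polynomial.degree_add_eq_left_of_degree_lt (by rw [Polynomial.degree_X_pow]; exact hlt w),
      Polynomial.degree_X_pow]
    intro h
    have h1 : p.natDegree = 0 := by exact_mod_cast h
    omega
  choose r hr using fun w => IsAlgClosed.exists_root (q w) (hdq w)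
  refine ⟨mk k r, ?_⟩
  rw [hp.as_sum, Polynomial.eval_add, Polynomial.eval_pow, Polynomial.eval_X,
    Polynomial.eval_finsetSum]
  have h1 : mk k r ^ p.natDegree + ∑ i ∈ Finset.range p.natDegree,
      Polynomial.eval (mk k r) (Polynomial.C (p.coeff i) * Polynomial.X ^ i) =
      mk k (r ^ p.natDegree + ∑ i ∈ Finset.range p.natDegree, f i * r ^ i) := by
    rw [map_add, map_pow, map_sum]
    congr 1
    refine Finset.sum_congr rfl fun i _ => ?_
    rw [Polynomial.eval_mul, Polynomial.eval_C, Polynomial.eval_pow, Polynomial.eval_X, map_mul,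
      map_pow, hf]
  rw [h1, ← map_zero (mk k)]
  congr 1
  funext w
  have h2 := hr w
  rw [Polynomial.IsRoot, hq] at h2
  simp only [Polynomial.eval_add, Polynomial.eval_pow, Polynomial.eval_X,
    Polynomial.eval_finsetSum, Polynomial.eval_mul, Polynomial.eval_C] at h2
  rw [Pi.add_apply, Pi.pow_apply, Finset.sum_apply]
  exact h2

theorem exists_cseq : ∃ c : ℕ → Polynomial ℚ, (∀ n, c n ≠ 0) ∧ ∀ q : Polynomial ℚ, q ≠ 0 →
    ∃ N, ∀ n, N ≤ n → q ∣ c n := by
  classical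
  have hcount : Countable (Polynomial ℚ) := by
    rw [← Cardinal.mk_le_aleph0_iff]
    refine (Polynomial.cardinalMk_le_max (R := ℚ)).trans ?_
    simp
  obtain ⟨f, hf⟩ := exists_surjective_nat (Polynomial ℚ)
  refine ⟨fun n => ∏ i ∈ (Finset.range (n + 1)).filter (fun i => f i ≠ 0), f i, fun n => ?_, fun q hq => ?_⟩
  · exact Finset.prod_ne_zero_iff.2 fun i hi => (Finset.mem_filter.1 hi).2
  · obtain ⟨N, rfl⟩ := hf q
    refine ⟨N, fun n hn => ?_⟩
    exact Finset.dvd_prod_of_mem f (Finset.mem_filter.2 ⟨Finset.mem_range.2 (by omega), hq⟩)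

variable {r : ℕ}

/-- the fibre -/
def VV (h : Fin r → ℚ⟦X⟧) (x : ℂ) : Set (Fin r → ℂ) :=
  {y | ∀ R : MvPolynomial (Fin r) (Polynomial ℚ), MvPolynomial.aeval h R = 0 →
    MvPolynomial.eval₂ (Polynomial.aeval x : Polynomial ℚ →ₐ[ℚ] ℂ).toRingHom y R = 0}

/-- the ring of functions -/
noncomputable abbrev AA (h : Fin r → ℚ⟦X⟧) : Subalgebra (Polynomial ℚ) ℚ⟦X⟧ := (MvPolynomial.aeval h).range

/-- the evaluation -/
noncomputable def fA (h : Fin r → ℚ⟦X⟧) : MvPolynomial (Fin r) (Polynomial ℚ) →+* AA h :=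
  ((MvPolynomial.aeval h : MvPolynomial (Fin r) (Polynomial ℚ) →ₐ[Polynomial ℚ] ℚ⟦X⟧).rangeRestrict).toRingHom

lemma fA_coe (h : Fin r → ℚ⟦X⟧) (p : MvPolynomial (Fin r) (Polynomial ℚ)) :
    ((fA h p : AA h) : ℚ⟦X⟧) = MvPolynomial.aeval h p := rfl

lemma fA_eq_zero (h : Fin r → ℚ⟦X⟧) (p : MvPolynomial (Fin r) (Polynomial ℚ)) :
    fA h p = 0 ↔ MvPolynomial.aeval h p = 0 := by
  rw [← fA_coe, ZeroMemClass.coe_eq_zero]

lemma fA_surj (h : Fin r → ℚ⟦X⟧) : Function.Surjective (fA h) :=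
  (MvPolynomial.aeval h : MvPolynomial (Fin r) (Polynomial ℚ) →ₐ[Polynomial ℚ] ℚ⟦X⟧).rangeRestrict_surjective

lemma fA_C (h : Fin r → ℚ⟦X⟧) (q : Polynomial ℚ) : fA h (MvPolynomial.C q) = algebraMap (Polynomial ℚ) (AA h) q := by
  apply Subtype.ext
  rw [fA_coe, MvPolynomial.aeval_C]
  rfl

lemma fA_inj (h : Fin r → ℚ⟦X⟧) : Function.Injective ((fA h).comp MvPolynomial.C) := by
  intro a b hab
  rw [RingHom.comp_apply, RingHom.comp_apply, fA_C, fA_C] at hab
  exact ps_inj (congrArg Subtype.val hab)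

/-- regularity -/
lemma conn_reg {h : Fin r → ℚ⟦X⟧} (hc : Conn h) : ∀ e : FractionRing (AA h),
    (∃ p : Polynomial (Polynomial ℚ), p ≠ 0 ∧
      p.eval₂ ((algebraMap (AA h) (FractionRing (AA h))).comp ((fA h).comp MvPolynomial.C)) e = 0) →
      ∃ a b : Polynomial ℚ, b ≠ 0 ∧ e = algebraMap (AA h) (FractionRing (AA h)) (fA h (MvPolynomial.C a)) /
        algebraMap (AA h) (FractionRing (AA h)) (fA h (MvPolynomial.C b)) := by
  rintro e ⟨p, hp0, hp⟩
  have huinj : Function.Injective ((algebraMap ℚ⟦X⟧ (FractionRing ℚ⟦X⟧)).comp (AA h).val.toRingHom) :=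
    (IsFractionRing.injective ℚ⟦X⟧ (FractionRing ℚ⟦X⟧)).comp Subtype.val_injective
  let uE : FractionRing (AA h) →+* FractionRing ℚ⟦X⟧ := IsFractionRing.lift (A := AA h) (K := FractionRing (AA h))
    (g := (algebraMap ℚ⟦X⟧ (FractionRing ℚ⟦X⟧)).comp (AA h).val.toRingHom) huinj
  have huE : ∀ q : AA h, uE (algebraMap (AA h) (FractionRing (AA h)) q) =
      algebraMap ℚ⟦X⟧ (FractionRing ℚ⟦X⟧) (q : ℚ⟦X⟧) :=
    fun q => IsFractionRing.lift_algebraMap huinj q
  have huC : ∀ q : Polynomial ℚ, uE (algebraMap (AA h) (FractionRing (AA h)) (fA h (MvPolynomial.C q))) =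
      algebraMap (Polynomial ℚ) (FractionRing ℚ⟦X⟧) q := by
    intro q
    rw [huE, IsScalarTower.algebraMap_apply (Polynomial ℚ) ℚ⟦X⟧ (FractionRing ℚ⟦X⟧), fA_coe,
      MvPolynomial.aeval_C]
  obtain ⟨x, y, hy, hxy⟩ := IsFractionRing.div_surjective (A := AA h) e
  obtain ⟨P, rfl⟩ := fA_surj h x
  obtain ⟨Q', rfl⟩ := fA_surj h y
  have hue : uE e = algebraMap ℚ⟦X⟧ (FractionRing ℚ⟦X⟧) (MvPolynomial.aeval h P) /
      algebraMap ℚ⟦X⟧ (FractionRing ℚ⟦X⟧) (MvPolynomial.aeval h Q') := by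
    rw [← hxy, map_div₀, huE, huE]
    rfl
  obtain ⟨a, b, hb, hab'⟩ := hc P Q' (by
    rw [← hue]
    refine ⟨p, hp0, ?_⟩
    rw [Polynomial.aeval_def]
    have h1 : algebraMap (Polynomial ℚ) (FractionRing ℚ⟦X⟧) =
        uE.comp ((algebraMap (AA h) (FractionRing (AA h))).comp ((fA h).comp MvPolynomial.C)) :=
      RingHom.ext fun q => (huC q).symm
    rw [h1, ← Polynomial.hom_eval₂, hp, map_zero])
  refine ⟨a, b, hb, ?_⟩
  apply uE.injective
  rw [hue, hab', map_div₀, huC, huC]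

/-- the fibres of a connected family are irreducible in bounded degree -/
theorem conn_core (h : Fin r → ℚ⟦X⟧) (hc : Conn h) (d : ℕ) : ∃ c : Polynomial ℚ, c ≠ 0 ∧
    ∀ x : ℂ, Polynomial.aeval x c ≠ 0 → ∀ P Q : MvPolynomial (Fin r) ℂ, P.totalDegree ≤ d → Q.totalDegree ≤ d →
      (∀ y ∈ VV h x, MvPolynomial.eval y P * MvPolynomial.eval y Q = 0) →
      (∀ y ∈ VV h x, MvPolynomial.eval y P = 0) ∨ (∀ y ∈ VV h x, MvPolynomial.eval y Q = 0) := by
  classical
  by_contra hcon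
  push Not at hcon
  obtain ⟨c, hc1, hc2⟩ := exists_cseq
  choose x hx P Q hP hQ hPQ hn using fun n => hcon (c n) (hc1 n)
  choose y hy hyP using fun n => (hn n).1
  choose y' hy' hyQ using fun n => (hn n).2
  -- the parameter
  let ev : Polynomial ℚ →+* (ℕ → ℂ) := RingHom.pi (fun n => (Polynomial.aeval (x n) : Polynomial ℚ →ₐ[ℚ] ℂ).toRingHom)
  let φ : Polynomial ℚ →+* U ℂ := (mk ℂ).comp ev
  have hφ : Function.Injective φ := by
    rw [injective_iff_map_eq_zero]
    intro q hq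
    by_contra hq0
    obtain ⟨N, hN⟩ := hc2 q hq0
    have h1 : mk ℂ (ev q) ≠ 0 := by
      rw [mk_ne_zero]
      filter_upwards [ev_ge N] with n hn h0
      obtain ⟨u, hu⟩ := hN n hn
      apply hx n
      have h0' : Polynomial.aeval (x n) q = 0 := h0
      rw [hu, map_mul, h0', zero_mul]
    exact h1 hq
  -- evaluation of the specialised polynomials
  have hevR : ∀ (R : MvPolynomial (Fin r) (Polynomial ℚ)) (z : Fin r → ℕ → ℂ),
      MvPolynomial.eval (fun i => mk ℂ (z i)) (MvPolynomial.map φ R) =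
        mk ℂ (fun n => MvPolynomial.eval₂ (Polynomial.aeval (x n) : Polynomial ℚ →ₐ[ℚ] ℂ).toRingHom
          (fun i => z i n) R) := by
    intro R z
    rw [← MvPolynomial.map_map, eval_mk]
    congr 1
    funext n
    rw [MvPolynomial.map_map, MvPolynomial.eval_map]
    rfl
  obtain ⟨P', hP'⟩ := of_seq d P hP
  obtain ⟨Q', hQ'⟩ := of_seq d Q hQ
  have hvan : ∀ (z : ℕ → Fin r → ℂ), (∀ n, z n ∈ VV h (x n)) → ∀ F ∈ spJ (fA h) φ,
      MvPolynomial.eval (fun i => mk ℂ (fun n => z n i)) F = 0 := by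
    intro z hz F hF
    have h1 : spJ (fA h) φ ≤ RingHom.ker (MvPolynomial.eval (fun i => mk ℂ (fun n => z n i))) := by
      refine Ideal.span_le.2 ?_
      rintro G ⟨R, hR, rfl⟩
      show MvPolynomial.eval _ (MvPolynomial.map φ R) = 0
      rw [hevR R (fun i n => z n i), ← map_zero (mk ℂ)]
      congr 1
      funext n
      exact hz n R ((fA_eq_zero h R).1 hR)
    exact h1 hF
  have hPJ : MvPolynomial.map (mk ℂ) P' ∉ spJ (fA h) φ := by
    intro hF
    have h1 := hvan y hy _ hF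
    rw [eval_mk, mk_eq_zero] at h1
    obtain ⟨n, hn⟩ := h1.exists
    rw [hP'] at hn
    exact hyP n hn
  have hQJ : MvPolynomial.map (mk ℂ) Q' ∉ spJ (fA h) φ := by
    intro hF
    have h1 := hvan y' hy' _ hF
    rw [eval_mk, mk_eq_zero] at h1
    obtain ⟨n, hn⟩ := h1.exists
    rw [hQ'] at hn
    exact hyQ n hn
  have hprime : (spJ (fA h) φ).IsPrime := by
    refine ⟨fun htop => hPJ (htop ▸ Submodule.mem_top), ?_⟩
    intro F G hFG
    exact prime_core (fA h) (fA_inj h) (conn_reg hc) φ hφ F G hFG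
  have hPQJ : MvPolynomial.map (mk ℂ) P' * MvPolynomial.map (mk ℂ) Q' ∉ spJ (fA h) φ := by
    intro hF
    rcases hprime.mem_or_mem hF with h1 | h1
    · exact hPJ h1
    · exact hQJ h1
  have hac : IsAlgClosed (U ℂ) := u_closed
  have hns := MvPolynomial.vanishingIdeal_zeroLocus_eq_radical (k := U ℂ) (K := U ℂ) (spJ (fA h) φ)
  rw [hprime.radical] at hns
  rw [← hns, MvPolynomial.mem_vanishingIdeal_iff] at hPQJ
  push Not at hPQJ
  obtain ⟨z, hz, hzPQ⟩ := hPQJ
  rw [MvPolynomial.mem_zeroLocus_iff] at hz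
  choose ζ hζ using fun i => mk_surj (k := ℂ) (z i)
  have hzζ : z = fun i => mk ℂ (ζ i) := funext fun i => (hζ i).symm
  -- the relations
  have hnoeth : (RingHom.ker (MvPolynomial.aeval h : MvPolynomial (Fin r) (Polynomial ℚ) →ₐ[Polynomial ℚ] ℚ⟦X⟧).toRingHom).FG :=
    (isNoetherianRing_iff_ideal_fg _).1 inferInstance _
  obtain ⟨G, hG⟩ := hnoeth
  have hev : ∀ᶠ n in (hyperfilter ℕ : Filter ℕ), ∀ R ∈ G,
      MvPolynomial.eval₂ (Polynomial.aeval (x n) : Polynomial ℚ →ₐ[ℚ] ℂ).toRingHom (fun i => ζ i n) R = 0 := by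
    rw [Filter.eventually_all_finset]
    intro R hR
    have h1 : MvPolynomial.aeval h R = 0 := by
      have h2 : R ∈ RingHom.ker (MvPolynomial.aeval h : MvPolynomial (Fin r) (Polynomial ℚ) →ₐ[Polynomial ℚ] ℚ⟦X⟧).toRingHom := by
        rw [← hG]
        exact Ideal.subset_span hR
      exact h2
    have h2 := hz (MvPolynomial.map φ R) (Ideal.subset_span ⟨R, (fA_eq_zero h R).2 h1, rfl⟩)
    rw [hzζ, MvPolynomial.aeval_def, Algebra.algebraMap_self, MvPolynomial.eval₂_id] at h2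
    rw [hevR, mk_eq_zero] at h2
    exact h2
  have hPQn : ∀ᶠ n in (hyperfilter ℕ : Filter ℕ), MvPolynomial.eval (fun i => ζ i n) (P n) *
      MvPolynomial.eval (fun i => ζ i n) (Q n) ≠ 0 := by
    have h2 := hzPQ
    rw [hzζ, MvPolynomial.aeval_def, Algebra.algebraMap_self, MvPolynomial.eval₂_id, map_mul, eval_mk, eval_mk,
      ← map_mul, mk_ne_zero] at h2
    filter_upwards [h2] with n hn
    have h3 := hn
    rw [Pi.mul_apply, hP', hQ'] at h3
    exact h3
  obtain ⟨n, hn1, hn2⟩ := (hev.and hPQn).exists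
  apply hn2
  apply hPQ n (fun i => ζ i n)
  intro R hR
  have h1 : (RingHom.ker (MvPolynomial.aeval h : MvPolynomial (Fin r) (Polynomial ℚ) →ₐ[Polynomial ℚ] ℚ⟦X⟧).toRingHom) ≤
      RingHom.ker (MvPolynomial.eval₂Hom (Polynomial.aeval (x n) : Polynomial ℚ →ₐ[ℚ] ℂ).toRingHom (fun i => ζ i n)) := by
    rw [← hG]
    refine Ideal.span_le.2 ?_
    intro R hR
    exact hn1 R hR
  exact h1 (show R ∈ RingHom.ker _ from hR)

end Pool.Agent.Y340.AF
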