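import Pool.Agent.Y916.Af.Stm2
import Pool.Agent.Y340.AF.ConnCore

set_option autoImplicit false

/-!
Project AF, job CONN: the fibres of a connected family are irreducible in bounded degree.
-/

namespace Pool.Agent.Y340.AF

theorem t_conn : Pool.Agent.Y916.Af.S_conn := by
  intro r h hc d
  obtain ⟨c, hc0, hcx⟩ := conn_core h hc d
  exact ⟨c, hc0, fun x hx P Q hP hQ hPQ => hcx x hx P Q hP hQ hPQ⟩

end Pool.Agent.Y340.AF
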